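import Pool.Agent.Helper12.MA.StA
import Pool.Agent.Helper12.MA.Lib

/-!
# Project MA (MP_d63854_co): module EDG, an edge can be added exactly if its ends are cofacial
-/

set_option autoImplicit false

namespace Pool.Agent.Helper56.MA

open Pool.Agent.Helper12.MA
open Pool.Agent.Helper51.AJ (IsMinor Planar Apex ExMinor Con Tch con_singleton con_pair con_nonempty)
open Pool.Agent.Helper12.NK (rst Kc add cnt Pcy IsFace Cof plus)

/-- connected sets stay connected when edges are added -/
private theorem con_ae {V : Type} {M : SimpleGraph V} {x y : V} {S : Set V} (h : Con M S) : Con (ae M x y) S := by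
  have hle : M.induce S ≤ (ae M x y).induce S := fun a b hab => Or.inl hab
  exact SimpleGraph.Connected.mono hle h

/-- more edges: still 3-connected -/
private theorem kc_ae {V : Type} {M : SimpleGraph V} {U : Set V} {x y : V} (h : Kc 3 M U) : Kc 3 (ae M x y) U :=
  ⟨h.1, fun X hX => con_ae (h.2 X hX)⟩

/-- the edge `x y` through the face `F` -/
private theorem back {V : Type} [Finite V] {M : SimpleGraph V} {U F : Set V} {x y : V} (hPn : Pn M U) (hxy : x ≠ y)
    (hF : IsFace M U F) (hxF : x ∈ F) (hyF : y ∈ F) : Planar (rst (ae M x y) U) := by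
  classical
  have hpl : Planar (plus M U) := nPLS V M U hPn.1 hPn.2
  let q : V ⊕ {F : Set V // IsFace M U F} := Sum.inr ⟨F, hF⟩
  have hyx : y ≠ x := hxy.symm
  refine nPTR V _ (rst (ae M x y) U) (plus M U)
    (fun a => if a = x then {Sum.inl x, q} else {Sum.inl a}) ?_ ?_ ?_ hpl
  · intro a a' _
    by_cases h : a = x
    · simp only [h, if_true]
      exact con_pair (show (plus M U).Adj (Sum.inl x) q from hxF)
    · simp only [h, if_false]
      exact con_singleton _ _
  · intro a a' b b' hab _ _
    rw [Set.disjoint_left]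
    intro t ht ht'
    by_cases h : a = x
    · have hb : b ≠ x := fun h' => hab (h.trans h'.symm)
      simp only [h, if_true] at ht
      simp only [hb, if_false] at ht'
      rcases ht with ht | ht
      · exact hb (Sum.inl_injective (ht'.symm.trans ht))
      · exact Sum.inl_ne_inr (ht'.symm.trans ht)
    · simp only [h, if_false] at ht
      by_cases hb : b = x
      · simp only [hb, if_true] at ht'
        rcases ht' with ht' | ht'
        · exact h (Sum.inl_injective (ht.symm.trans ht'))
        · exact Sum.inl_ne_inr (ht.symm.trans ht')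
      · simp only [hb, if_false] at ht'
        exact hab (Sum.inl_injective (ht.symm.trans ht'))
  · have mem : ∀ a : V, (Sum.inl a : V ⊕ {F : Set V // IsFace M U F}) ∈
        (if a = x then ({Sum.inl x, q} : Set _) else {Sum.inl a}) := by
      intro a
      by_cases h : a = x
      · simp only [h, if_true]
        exact Or.inl rfl
      · simp only [h, if_false]
        exact rfl
    have memq : q ∈ (if x = x then ({Sum.inl x, q} : Set _) else {Sum.inl x}) := by
      simp only [if_true]
      exact Or.inr rfl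
    rintro a a' ⟨h | ⟨_, ⟨h1, h2⟩ | ⟨h1, h2⟩⟩, ha, ha'⟩
    · exact ⟨Sum.inl a, mem a, Sum.inl a', mem a', ⟨h, ha, ha'⟩⟩
    · subst h1 h2
      exact ⟨q, memq, Sum.inl a', mem a', hyF⟩
    · subst h1 h2
      exact ⟨Sum.inl a, mem a, q, memq, hyF⟩

/-- a new vertex in three vertices of a face of a larger graph -/
private theorem vert {V : Type} [Finite V] {M M' : SimpleGraph V} {U F N : Set V} {o : V} (hle : ∀ a b, M.Adj a b → M'.Adj a b)
    (hpl : Planar (plus M' U)) (hF : IsFace M' U F) (hN : N ⊆ F) (ho : o ∉ U) : Planar (add (rst M U) o N) := by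
  classical
  let q : V ⊕ {F : Set V // IsFace M' U F} := Sum.inr ⟨F, hF⟩
  refine nPTR V _ (add (rst M U) o N) (plus M' U) (fun a => if a = o then {q} else {Sum.inl a}) ?_ ?_ ?_ hpl
  · intro a a' _
    by_cases h : a = o
    · simp only [h, if_true]
      exact con_singleton _ _
    · simp only [h, if_false]
      exact con_singleton _ _
  · intro a a' b b' hab _ _
    by_cases h : a = o
    · have hb : b ≠ o := fun h' => hab (h.trans h'.symm)
      simp only [h, hb, if_true, if_false]
      rw [Set.disjoint_singleton]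
      exact Sum.inr_ne_inl
    · by_cases hb : b = o
      · simp only [h, hb, if_true, if_false]
        rw [Set.disjoint_singleton]
        exact Sum.inl_ne_inr
      · simp only [h, hb, if_false]
        rw [Set.disjoint_singleton]
        exact fun h' => hab (Sum.inl_injective h')
  · intro a a' h
    rcases h with h | ⟨h1, h2, h3⟩ | ⟨h1, h2, h3⟩
    · have ha : a ≠ o := fun h' => ho (h' ▸ h.2.1)
      have ha' : a' ≠ o := fun h' => ho (h' ▸ h.2.2)
      simp only [ha, ha', if_false]
      exact ⟨_, rfl, _, rfl, ⟨hle _ _ h.1, h.2.1, h.2.2⟩⟩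
    · simp only [h1, h3, if_true, if_false]
      exact ⟨_, rfl, _, rfl, hN h2⟩
    · simp only [h1, h3, if_true, if_false]
      exact ⟨_, rfl, _, rfl, hN h2⟩

theorem hEDG (hFAX : StFAX) : StEDG := by
  intro V _ M U x y o hPn hx hy hxy ho
  constructor
  · intro hP
    by_cases hM : M.Adj x y
    · obtain ⟨F, _, hF, _, _, hxF, hyF, _⟩ := nEDF V M U x y hPn.1 hPn.2 hx hy hM
      exact ⟨F, hF, hxF, hyF⟩
    · have hK : Kc 3 (ae M x y) U := kc_ae hPn.1
      have hadj : (ae M x y).Adj x y := Or.inr ⟨hxy, Or.inl ⟨rfl, rfl⟩⟩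
      obtain ⟨F, _, hF, _, _, hxF, hyF, _⟩ := nEDF V (ae M x y) U x y hK hP hx hy hadj
      obtain ⟨hFU, h3, _⟩ := hFAX V (ae M x y) U F hF
      obtain ⟨w, hwF, hw⟩ : ∃ w ∈ F, w ∉ ({x, y} : Set V) := by
        by_contra hcon
        have hsub : F ⊆ ({x, y} : Set V) := fun t ht => by_contra fun h => hcon ⟨t, ht, h⟩
        have h1 : F.ncard ≤ ({x, y} : Set V).ncard := Set.ncard_le_ncard hsub (Set.toFinite _)
        have h2 : ({x, y} : Set V).ncard = 2 := Set.ncard_pair hxy
        omega
      have hwx : w ≠ x := fun h => hw (Or.inl h)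
      have hwy : w ≠ y := fun h => hw (Or.inr h)
      have hN : ({x, y, w} : Set V) ⊆ F := by
        rintro t (rfl | rfl | rfl)
        · exact hxF
        · exact hyF
        · exact hwF
      have hc : 3 ≤ ({x, y, w} : Set V).ncard := by
        rw [Set.ncard_eq_three.2 ⟨x, y, w, hxy, hwx.symm, hwy.symm, rfl⟩]
      have hpl : Planar (plus (ae M x y) U) := nPLS V (ae M x y) U hK hP
      have hpa : Planar (add (rst M U) o {x, y, w}) := vert (fun a b h => Or.inl h) hpl hF hN ho
      obtain ⟨m, c, hcy, hsub, _⟩ := nTUT V M U {x, y, w} o hPn.1 (hN.trans hFU) hc ho hpa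
      exact ⟨Set.range c, ⟨m, c, hcy, rfl⟩, hsub (Or.inl rfl), hsub (Or.inr (Or.inl rfl))⟩
  · rintro ⟨F, hF, hxF, hyF⟩
    exact back hPn hxy hF hxF hyF

end Pool.Agent.Helper56.MA
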